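import Mathlib

set_option autoImplicit false

/-!
# Counting subsets which contain none of several disjoint sets
-/

open Finset

namespace Pool.Agent.R140.Shl

variable {β ι : Type*} [DecidableEq β] [DecidableEq ι]

/-- The number of subsets of `U` containing none of the disjoint sets `S x`, `x ∈ X`, of size at most `c`. -/
theorem count_avoid (U : Finset β) (X : Finset ι) (S : ι → Finset β) (c : ℕ)
    (hS : ∀ x ∈ X, S x ⊆ U) (hc : ∀ x ∈ X, (S x).card ≤ c)
    (hd : ∀ x ∈ X, ∀ y ∈ X, x ≠ y → Disjoint (S x) (S y)) :
    ((U.powerset.filter fun A => ∀ x ∈ X, ¬ S x ⊆ A).card : ℝ) ≤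
      (1 - (1 / 2) ^ c) ^ X.card * 2 ^ U.card := by
  induction X using Finset.induction_on with
  | empty => simp
  | insert x X hx ih =>
    have ih' := ih (fun y hy => hS y (mem_insert_of_mem hy)) (fun y hy => hc y (mem_insert_of_mem hy))
      (fun y hy z hz => hd y (mem_insert_of_mem hy) z (mem_insert_of_mem hz))
    set N := U.powerset.filter fun A => ∀ y ∈ X, ¬ S y ⊆ A with hN
    set K := N.filter fun A => S x ⊆ A with hK
    have h1 : (U.powerset.filter fun A => ∀ y ∈ insert x X, ¬ S y ⊆ A) = N.filter fun A => ¬ S x ⊆ A := by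
      ext A
      simp only [hN, mem_filter, mem_insert, forall_eq_or_imp]
      tauto
    have h2 : K.card + (N.filter fun A => ¬ S x ⊆ A).card = N.card :=
      card_filter_add_card_filter_not _
    have h3 : N.card ≤ 2 ^ (S x).card * K.card := by
      have h4 : N.image (fun A => A ∪ S x) ⊆ K := by
        intro A hA
        obtain ⟨A', hA', rfl⟩ := mem_image.1 hA
        rw [hK, mem_filter, hN, mem_filter, mem_powerset]
        rw [hN, mem_filter, mem_powerset] at hA'
        refine ⟨⟨union_subset hA'.1 (hS x (mem_insert_self x X)), ?_⟩, subset_union_right⟩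
        intro y hy hsub
        apply hA'.2 y hy
        intro z hz
        rcases mem_union.1 (hsub hz) with h | h
        · exact h
        · exact absurd h (disjoint_left.1 (hd y (mem_insert_of_mem hy) x (mem_insert_self x X)
            (fun h => hx (h ▸ hy))) hz)
      have h5 : N.card ≤ (2 ^ (S x).card) * (N.image (fun A => A ∪ S x)).card := by
        apply card_le_mul_card_image
        intro B _
        rw [← card_powerset]
        apply card_le_card_of_injOn (fun A => A ∩ S x)
        · intro A _
          simp
        · intro A hA A' hA' h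
          rw [mem_coe, mem_filter] at hA hA'
          simp only at h
          ext z
          by_cases hz : z ∈ S x
          · have : z ∈ A ∩ S x ↔ z ∈ A' ∩ S x := by rw [h]
            simpa [hz] using this
          · have : z ∈ A ∪ S x ↔ z ∈ A' ∪ S x := by rw [hA.2, hA'.2]
            simpa [hz] using this
      exact h5.trans (Nat.mul_le_mul_left _ (card_le_card h4))
    have h6 : ((2 : ℝ) ^ c)⁻¹ * N.card ≤ K.card := by
      rw [inv_mul_le_iff₀ (by positivity)]
      have h7 : (N.card : ℝ) ≤ 2 ^ (S x).card * K.card := by exact_mod_cast h3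
      refine h7.trans (mul_le_mul_of_nonneg_right ?_ (Nat.cast_nonneg _))
      exact pow_le_pow_right₀ (by norm_num) (hc x (mem_insert_self x X))
    have h8 : (((N.filter fun A => ¬ S x ⊆ A).card : ℕ) : ℝ) = N.card - K.card := by
      have : ((K.card + (N.filter fun A => ¬ S x ⊆ A).card : ℕ) : ℝ) = N.card := by rw [h2]
      push_cast at this
      linarith
    rw [h1, h8, card_insert_of_notMem hx, pow_succ]
    have h9 : (0 : ℝ) ≤ 1 - (1 / 2) ^ c := by
      have : ((1 : ℝ) / 2) ^ c ≤ 1 := pow_le_one₀ (by norm_num) (by norm_num)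
      linarith
    have h10 : ((1 : ℝ) / 2) ^ c = ((2 : ℝ) ^ c)⁻¹ := by
      rw [one_div, inv_pow]
    calc (N.card : ℝ) - K.card ≤ (1 - (1 / 2) ^ c) * N.card := by
          rw [h10]; linarith
      _ ≤ (1 - (1 / 2) ^ c) * ((1 - (1 / 2) ^ c) ^ X.card * 2 ^ U.card) :=
          mul_le_mul_of_nonneg_left ih' h9
      _ = _ := by ring

end Pool.Agent.R140.Shl
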