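import Mathlib

set_option autoImplicit false

/-!
# Shellability of a family of `d`-sets from the star of a vertex
-/

open Finset

namespace Pool.Agent.R140.Shl

variable {α : Type*} [DecidableEq α]

/-- covered by the list -/
def Cov (l : List (Finset α)) (G : Finset α) : Prop := ∃ F ∈ l, G ⊆ F

theorem Cov.mono {l l' : List (Finset α)} {G : Finset α} (h : Cov l G) (hl : ∀ F ∈ l, F ∈ l') :
    Cov l' G := by
  obtain ⟨F, hF, hG⟩ := h
  exact ⟨F, hl F hF, hG⟩

/-- `F` may be added after the facets in `l` -/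
def Step (d : ℕ) (l : List (Finset α)) (F : Finset α) : Prop :=
  ∀ G ⊆ F, Cov l G → ∃ H, G ⊆ H ∧ H ⊆ F ∧ Cov l H ∧ H.card + 1 = d

/-- shelling order -/
def IsShl (d : ℕ) (l : List (Finset α)) : Prop :=
  ∀ P F Q, l = P ++ F :: Q → P ≠ [] → Step d P F

theorem isShl_nil (d : ℕ) : IsShl d ([] : List (Finset α)) := by
  intro P F Q h
  simp at h

theorem IsShl.append_one {d : ℕ} {l : List (Finset α)} {F : Finset α} (h : IsShl d l)
    (hF : l ≠ [] → Step d l F) : IsShl d (l ++ [F]) := by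
  intro P F' Q he hP
  rcases List.eq_nil_or_concat Q with rfl | ⟨Q', x, rfl⟩
  · have := List.append_inj' he (by simp)
    obtain ⟨h1, h2⟩ := this
    simp only [List.cons.injEq, and_true] at h2
    subst h1 h2
    exact hF hP
  · have h3 : l ++ [F] = (P ++ F' :: Q') ++ [x] := by rw [he]; simp
    have := List.append_inj' h3 (by simp)
    exact h P F' Q' this.1 hP

/-- at most one codimension one face of `F` is not covered -/
def Nice (d : ℕ) (l : List (Finset α)) (F : Finset α) : Prop :=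
  F.card = d ∧ ∀ x ∈ F, ∀ y ∈ F, x ≠ y → Cov l (F.erase x) ∨ Cov l (F.erase y)

theorem Nice.mono {d : ℕ} {l l' : List (Finset α)} {F : Finset α} (h : Nice d l F)
    (hl : ∀ F ∈ l, F ∈ l') : Nice d l' F :=
  ⟨h.1, fun x hx y hy hxy => (h.2 x hx y hy hxy).imp (fun h => h.mono hl) (fun h => h.mono hl)⟩

theorem Nice.step {d : ℕ} (hd : 2 ≤ d) {l : List (Finset α)} {F : Finset α} (h : Nice d l F)
    (hl : ∀ F' ∈ l, F'.card = d) (hF : F ∉ l) : Step d l F := by
  intro G hG hcov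
  obtain ⟨F', hF', hGF'⟩ := hcov
  have hne : G ≠ F := by
    rintro rfl
    have : G = F' := eq_of_subset_of_card_le hGF' (by rw [hl F' hF', h.1])
    exact hF (this ▸ hF')
  obtain ⟨x, hxF, hxG⟩ := exists_of_ssubset (Finset.ssubset_iff_subset_ne.2 ⟨hG, hne⟩)
  by_cases hx : Cov l (F.erase x)
  · refine ⟨F.erase x, ?_, erase_subset _ _, hx, ?_⟩
    · intro z hz
      exact mem_erase.2 ⟨fun h => hxG (h ▸ hz), hG hz⟩
    · rw [card_erase_of_mem hxF, h.1]; omega
  · have hsub : G ⊆ F.erase x := fun z hz => mem_erase.2 ⟨fun h => hxG (h ▸ hz), hG hz⟩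
    have hne2 : G ≠ F.erase x := by
      rintro rfl
      exact hx ⟨F', hF', hGF'⟩
    obtain ⟨y, hyF, hyG⟩ := exists_of_ssubset (Finset.ssubset_iff_subset_ne.2 ⟨hsub, hne2⟩)
    rw [mem_erase] at hyF
    have hy := (h.2 x hxF y hyF.2 (Ne.symm hyF.1)).resolve_left hx
    refine ⟨F.erase y, ?_, erase_subset _ _, hy, ?_⟩
    · intro z hz
      exact mem_erase.2 ⟨fun h => hyG (h ▸ hz), hG hz⟩
    · rw [card_erase_of_mem hyF.2, h.1]; omega

theorem append_many {d : ℕ} (hd : 2 ≤ d) {l L : List (Finset α)} (h : IsShl d l)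
    (hl : ∀ F ∈ l, F.card = d) (hL : ∀ F ∈ L, Nice d l F) (hnd : (l ++ L).Nodup) :
    IsShl d (l ++ L) := by
  induction L using List.reverseRecOn with
  | nil => simpa using h
  | append_singleton L F ih =>
    rw [← List.append_assoc] at hnd ⊢
    have hnd' := (List.nodup_append.1 hnd)
    apply (ih (fun F' hF' => hL F' (by simp [hF'])) hnd'.1).append_one
    intro _
    apply ((hL F (by simp)).mono (l' := l ++ L) (fun F' hF' => by simp [hF'])).step hd
    · intro F' hF'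
      rcases List.mem_append.1 hF' with h1 | h1
      · exact hl F' h1
      · exact (hL F' (by simp [h1])).1
    · intro hF
      exact hnd'.2.2 F hF F (by simp) rfl

theorem cone {e : ℕ} {l : List (Finset α)} {v : α} (h : IsShl e l) (hv : ∀ F ∈ l, v ∉ F) :
    IsShl (e + 1) (l.map (insert v)) := by
  intro P F Q he hP
  obtain ⟨P', R, rfl, rfl, hR⟩ := List.map_eq_append_iff.1 he
  obtain ⟨F', Q', rfl, rfl, rfl⟩ := List.map_eq_cons_iff.1 hR
  have hP' : P' ≠ [] := by
    rintro rfl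
    exact hP rfl
  intro G hG hcov
  obtain ⟨F2, hF2, hGF2⟩ := hcov
  obtain ⟨F3, hF3, rfl⟩ := List.mem_map.1 hF2
  have hsub : ∀ A : Finset α, G ⊆ insert v A → G.erase v ⊆ A := by
    intro A hA z hz
    rw [mem_erase] at hz
    exact (mem_insert.1 (hA hz.2)).resolve_left hz.1
  obtain ⟨H, h1, h2, ⟨F4, hF4, h5⟩, h6⟩ := h P' F' Q' rfl hP' (G.erase v) (hsub _ hG)
    ⟨F3, hF3, hsub _ hGF2⟩
  refine ⟨insert v H, ?_, insert_subset_insert v h2, ⟨insert v F4, List.mem_map.2 ⟨F4, hF4, rfl⟩,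
    insert_subset_insert v h5⟩, ?_⟩
  · intro z hz
    by_cases hzv : z = v
    · rw [hzv]; exact mem_insert_self v H
    · exact mem_insert_of_mem (h1 (mem_erase.2 ⟨hzv, hz⟩))
  · have : v ∉ H := fun hvH => hv F' (by simp) (h2 hvH)
    rw [card_insert_of_notMem this, h6]

/-- shellable family -/
def Shb (d : ℕ) (𝓕 : Finset (Finset α)) : Prop :=
  ∃ l : List (Finset α), l.Nodup ∧ l.toFinset = 𝓕 ∧ IsShl d l

/-- the link of `v` -/
def lnk (v : α) (𝓕 : Finset (Finset α)) : Finset (Finset α) :=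
  (𝓕.filter fun F => v ∈ F).image fun F => F.erase v

theorem mem_lnk {v : α} {𝓕 : Finset (Finset α)} {G : Finset α} :
    G ∈ lnk v 𝓕 ↔ v ∉ G ∧ insert v G ∈ 𝓕 := by
  unfold lnk
  rw [mem_image]
  constructor
  · rintro ⟨F, hF, rfl⟩
    rw [mem_filter] at hF
    exact ⟨notMem_erase v F, by rw [insert_erase hF.2]; exact hF.1⟩
  · rintro ⟨h1, h2⟩
    exact ⟨insert v G, mem_filter.2 ⟨h2, mem_insert_self v G⟩, erase_insert h1⟩

/-- the sets which are needed for `τ`, with the new vertex `x` -/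
def need (v : α) (τ : Finset α) (x : α) : Finset (Finset α) :=
  insert (insert x τ) (τ.image fun y => insert v ((insert x τ).erase y))

/-- the deterministic lemma -/
theorem shb_of_lnk {e : ℕ} (he : 1 ≤ e) {W : Finset α} {v : α} {𝓕 : Finset (Finset α)}
    (h𝓕 : 𝓕 ⊆ powersetCard (e + 1) W) (hlk : Shb e (lnk v 𝓕))
    (hτ : ∀ τ ∈ powersetCard e (W.erase v), ∃ x ∈ (W.erase v) \ τ, need v τ x ⊆ 𝓕) :
    Shb (e + 1) 𝓕 := by
  classical
  obtain ⟨l, hl1, hl2, hl3⟩ := hlk
  have hml : ∀ F, F ∈ l ↔ v ∉ F ∧ insert v F ∈ 𝓕 := by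
    intro F
    rw [← mem_lnk, ← hl2, List.mem_toFinset]
  have hcard : ∀ F ∈ 𝓕, F.card = e + 1 := fun F hF => (mem_powersetCard.1 (h𝓕 hF)).2
  set l1 := l.map (insert v) with hl1'
  have h1 : IsShl (e + 1) l1 := cone hl3 (fun F hF => ((hml F).1 hF).1)
  have hm1 : ∀ F, F ∈ l1 ↔ v ∈ F ∧ F ∈ 𝓕 := by
    intro F
    rw [hl1', List.mem_map]
    constructor
    · rintro ⟨G, hG, rfl⟩
      exact ⟨mem_insert_self v G, ((hml G).1 hG).2⟩
    · rintro ⟨h1, h2⟩
      exact ⟨F.erase v, (hml _).2 ⟨notMem_erase v F, by rw [insert_erase h1]; exact h2⟩,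
        insert_erase h1⟩
  have hn1 : l1.Nodup := by
    rw [hl1']
    apply List.Nodup.map_on _ hl1
    intro a ha b hb hab
    have h3 : (insert v a).erase v = (insert v b).erase v := by rw [hab]
    rwa [erase_insert ((hml a).1 ha).1, erase_insert ((hml b).1 hb).1] at h3
  let A2 := 𝓕.filter fun F => v ∉ F ∧ Nice (e + 1) l1 F
  let A3 := 𝓕.filter fun F => v ∉ F ∧ ¬ Nice (e + 1) l1 F
  have hm2 : ∀ F, F ∈ A2.toList ↔ F ∈ 𝓕 ∧ v ∉ F ∧ Nice (e + 1) l1 F := by
    intro F
    rw [mem_toList, mem_filter]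
  have hm3 : ∀ F, F ∈ A3.toList ↔ F ∈ 𝓕 ∧ v ∉ F ∧ ¬ Nice (e + 1) l1 F := by
    intro F
    rw [mem_toList, mem_filter]
  have hn2 : (l1 ++ A2.toList).Nodup := by
    rw [List.nodup_append]
    refine ⟨hn1, nodup_toList _, ?_⟩
    rintro a ha b hb rfl
    exact ((hm2 a).1 hb).2.1 ((hm1 a).1 ha).1
  have hn3 : ((l1 ++ A2.toList) ++ A3.toList).Nodup := by
    rw [List.nodup_append]
    refine ⟨hn2, nodup_toList _, ?_⟩
    rintro a ha b hb rfl
    rcases List.mem_append.1 ha with h | h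
    · exact ((hm3 a).1 hb).2.1 ((hm1 a).1 h).1
    · exact ((hm3 a).1 hb).2.2 ((hm2 a).1 h).2.2
  have h2 : IsShl (e + 1) (l1 ++ A2.toList) := by
    apply append_many (by omega) h1 _ _ hn2
    · intro F hF
      exact hcard F ((hm1 F).1 hF).2
    · intro F hF
      exact ((hm2 F).1 hF).2.2
  -- every set of size `e` without `v` is covered
  have hcov : ∀ τ ∈ powersetCard e (W.erase v), Cov (l1 ++ A2.toList) τ := by
    intro τ hτm
    obtain ⟨x, hx, h⟩ := hτ τ hτm
    rw [mem_sdiff] at hx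
    rw [mem_powersetCard] at hτm
    have hvτ : v ∉ τ := fun h => (notMem_erase v W) (hτm.1 h)
    have hxv : x ≠ v := (mem_erase.1 hx.1).1
    have hF : insert x τ ∈ 𝓕 := h (mem_insert_self _ _)
    refine ⟨insert x τ, List.mem_append.2 (Or.inr ((hm2 _).2 ⟨hF, ?_, ?_⟩)), subset_insert _ _⟩
    · rw [mem_insert]
      rintro (h1 | h1)
      · exact hxv h1.symm
      · exact hvτ h1
    · refine ⟨hcard _ hF, ?_⟩
      have key : ∀ y ∈ insert x τ, y ≠ x → Cov l1 ((insert x τ).erase y) := by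
        intro y hy hyx
        have hyτ : y ∈ τ := (mem_insert.1 hy).resolve_left hyx
        refine ⟨insert v ((insert x τ).erase y), (hm1 _).2 ⟨mem_insert_self _ _, h ?_⟩,
          subset_insert _ _⟩
        exact mem_insert_of_mem (mem_image.2 ⟨y, hyτ, rfl⟩)
      intro a ha b hb hab
      by_cases hax : a = x
      · exact Or.inr (key b hb (fun h => hab (hax.trans h.symm)))
      · exact Or.inl (key a ha hax)
  have h3 : IsShl (e + 1) ((l1 ++ A2.toList) ++ A3.toList) := by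
    apply append_many (by omega) h2 _ _ hn3
    · intro F hF
      rcases List.mem_append.1 hF with h | h
      · exact hcard F ((hm1 F).1 h).2
      · exact hcard F ((hm2 F).1 h).1
    · intro F hF
      obtain ⟨hF1, hF2, -⟩ := (hm3 F).1 hF
      refine ⟨hcard F hF1, fun x hx y hy hxy => Or.inl (hcov _ ?_)⟩
      rw [mem_powersetCard]
      refine ⟨?_, by rw [card_erase_of_mem hx, hcard F hF1]; rfl⟩
      intro z hz
      rw [mem_erase] at hz ⊢
      exact ⟨fun h => hF2 (h ▸ hz.2), (mem_powersetCard.1 (h𝓕 hF1)).1 hz.2⟩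
  refine ⟨_, hn3, ?_, h3⟩
  ext F
  rw [List.mem_toFinset, List.mem_append, List.mem_append, hm1, hm2, hm3]
  constructor
  · rintro ((h | h) | h)
    · exact h.2
    · exact h.1
    · exact h.1
  · intro h
    by_cases hv : v ∈ F
    · exact Or.inl (Or.inl ⟨hv, h⟩)
    · by_cases hn : Nice (e + 1) l1 F
      · exact Or.inl (Or.inr ⟨h, hv, hn⟩)
      · exact Or.inr ⟨h, hv, hn⟩

theorem shb_one {𝓕 : Finset (Finset α)} (h : ∀ F ∈ 𝓕, F.card = 1) : Shb 1 𝓕 := by
  refine ⟨𝓕.toList, nodup_toList _, by simp, ?_⟩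
  intro P F Q he hP G hG hcov
  obtain ⟨F', hF', hGF'⟩ := hcov
  have hnd := nodup_toList 𝓕
  rw [he] at hnd
  have hne : F' ≠ F := by
    rintro rfl
    have := (List.nodup_append.1 hnd).2.2 F' hF' F' (by simp)
    exact this rfl
  have hm : ∀ A ∈ P ++ F :: Q, A.card = 1 := by
    intro A hA
    rw [← he, mem_toList] at hA
    exact h A hA
  have h1 := hm F (by simp)
  have h2 := hm F' (by simp [hF'])
  refine ⟨∅, ?_, empty_subset _, ⟨F', hF', empty_subset _⟩, by simp⟩
  obtain ⟨a, rfl⟩ := card_eq_one.1 h1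
  obtain ⟨b, rfl⟩ := card_eq_one.1 h2
  rcases subset_singleton_iff.1 hG with h3 | h3
  · exact h3.subset
  · exfalso
    rw [h3, singleton_subset_singleton] at hGF'
    exact hne (by rw [hGF'])

end Pool.Agent.R140.Shl
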