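import Pool.Agent.R140.Shl.Det
import Pool.Agent.R140.Shl.Count

set_option autoImplicit false

/-!
# Almost all families of `d`-sets are shellable
-/

open Finset Filter Topology

namespace Pool.Agent.R140.Shl

variable {α : Type*} [DecidableEq α]

open Classical in
/-- the families which are not shellable -/
noncomputable def bad (d : ℕ) (W : Finset α) : Finset (Finset (Finset α)) :=
  (powersetCard d W).powerset.filter fun 𝓕 => ¬ Shb d 𝓕

theorem mem_bad {d : ℕ} {W : Finset α} {𝓕 : Finset (Finset α)} :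
    𝓕 ∈ bad d W ↔ 𝓕 ⊆ powersetCard d W ∧ ¬ Shb d 𝓕 := by
  classical
  simp only [bad, mem_filter, mem_powerset]

theorem lnk_sub {e : ℕ} {W : Finset α} {v : α} {𝓕 : Finset (Finset α)}
    (h : 𝓕 ⊆ powersetCard (e + 1) W) : lnk v 𝓕 ⊆ powersetCard e (W.erase v) := by
  intro G hG
  obtain ⟨h1, h2⟩ := mem_lnk.1 hG
  have h3 := mem_powersetCard.1 (h h2)
  rw [card_insert_of_notMem h1] at h3
  rw [mem_powersetCard]
  refine ⟨fun z hz => mem_erase.2 ⟨fun h => h1 (h ▸ hz), h3.1 (mem_insert_of_mem hz)⟩, by omega⟩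

theorem card_lnk_bad {e : ℕ} {W : Finset α} {v : α} (hv : v ∈ W) :
    (((powersetCard (e + 1) W).powerset.filter fun 𝓕 => lnk v 𝓕 ∈ bad e (W.erase v)).card) ≤
      2 ^ ((W.card - 1).choose (e + 1)) * (bad e (W.erase v)).card := by
  set A := (powersetCard (e + 1) W).powerset.filter fun 𝓕 => lnk v 𝓕 ∈ bad e (W.erase v) with hA
  have h1 : A.image (lnk v) ⊆ bad e (W.erase v) := by
    intro L hL
    obtain ⟨𝓕, hF, rfl⟩ := mem_image.1 hL
    exact (mem_filter.1 hF).2
  have h2 : A.card ≤ 2 ^ ((W.card - 1).choose (e + 1)) * (A.image (lnk v)).card := by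
    apply card_le_mul_card_image
    intro L _
    have h3 : 2 ^ ((W.card - 1).choose (e + 1)) =
        ((powersetCard (e + 1) (W.erase v)).powerset).card := by
      rw [card_powerset, card_powersetCard, card_erase_of_mem hv]
    rw [h3]
    apply card_le_card_of_injOn (fun 𝓕 => 𝓕.filter fun F => v ∉ F)
    · intro 𝓕 hF
      rw [mem_coe, mem_filter, hA, mem_filter, mem_powerset] at hF
      rw [mem_coe, mem_powerset]
      intro F hF'
      rw [mem_filter] at hF'
      have h4 := mem_powersetCard.1 (hF.1.1 hF'.1)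
      rw [mem_powersetCard]
      exact ⟨fun z hz => mem_erase.2 ⟨fun h => hF'.2 (h ▸ hz), h4.1 hz⟩, h4.2⟩
    · intro 𝓕 hF 𝓖 hG h
      rw [mem_coe, mem_filter] at hF hG
      simp only at h
      ext F
      by_cases hvF : v ∈ F
      · have h5 : ∀ 𝓗 : Finset (Finset α), F ∈ 𝓗 ↔ F.erase v ∈ lnk v 𝓗 := by
          intro 𝓗
          rw [mem_lnk, insert_erase hvF]
          simp
        rw [h5 𝓕, h5 𝓖, hF.2, hG.2]
      · have h5 : F ∈ 𝓕.filter (fun F => v ∉ F) ↔ F ∈ 𝓖.filter (fun F => v ∉ F) := by rw [h]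
        simpa [hvF] using h5
  exact h2.trans (Nat.mul_le_mul_left _ (card_le_card h1))

theorem need_card {v : α} {τ : Finset α} {x : α} {e : ℕ} (h : τ.card = e) :
    (need v τ x).card ≤ e + 1 := by
  unfold need
  refine (card_insert_le _ _).trans ?_
  have := card_image_le (s := τ) (f := fun y => insert v ((insert x τ).erase y))
  omega

theorem need_sub {v : α} {τ : Finset α} {x : α} {e : ℕ} {W : Finset α} (hv : v ∈ W)
    (h : τ ∈ powersetCard e (W.erase v)) (hx : x ∈ (W.erase v) \ τ) :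
    need v τ x ⊆ powersetCard (e + 1) W := by
  rw [mem_powersetCard] at h
  rw [Finset.mem_sdiff, mem_erase] at hx
  intro F hF
  unfold need at hF
  rw [mem_insert, mem_image] at hF
  rw [mem_powersetCard]
  have h1 : (insert x τ).card = e + 1 := by rw [card_insert_of_notMem hx.2, h.2]
  have h2 : insert x τ ⊆ W := by
    intro z hz
    rcases mem_insert.1 hz with rfl | hz
    · exact hx.1.2
    · exact (mem_erase.1 (h.1 hz)).2
  rcases hF with rfl | ⟨y, hy, rfl⟩
  · exact ⟨h2, h1⟩
  · have h3 : v ∉ insert x τ := by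
      intro hvx
      rcases mem_insert.1 hvx with h4 | h4
      · exact hx.1.1 h4.symm
      · exact (mem_erase.1 (h.1 h4)).1 rfl
    refine ⟨?_, ?_⟩
    · intro z hz
      rcases mem_insert.1 hz with rfl | hz
      · exact hv
      · exact h2 (mem_erase.1 hz).2
    · rw [card_insert_of_notMem (fun h => h3 (mem_erase.1 h).2),
        card_erase_of_mem (mem_insert_of_mem hy), h1]
      rfl

theorem need_mem {v : α} {τ : Finset α} {x : α} (hx : x ∉ τ) :
    ∀ F ∈ need v τ x, x ∈ F := by
  intro F hF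
  unfold need at hF
  rw [mem_insert, mem_image] at hF
  rcases hF with rfl | ⟨y, hy, rfl⟩
  · exact mem_insert_self _ _
  · exact mem_insert_of_mem (mem_erase.2 ⟨fun h => hx (h ▸ hy), mem_insert_self _ _⟩)

theorem need_notMem {v : α} {τ : Finset α} {x y : α} (hx : x ∉ τ) (hxy : x ≠ y) (hxv : x ≠ v) :
    ∀ F ∈ need v τ y, x ∉ F := by
  intro F hF hxF
  unfold need at hF
  rw [mem_insert, mem_image] at hF
  rcases hF with rfl | ⟨z, hz, rfl⟩
  · rcases mem_insert.1 hxF with h | h
    · exact hxy h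
    · exact hx h
  · rcases mem_insert.1 hxF with h | h
    · exact hxv h
    · rcases mem_insert.1 (mem_erase.1 h).2 with h | h
      · exact hxy h
      · exact hx h

theorem bad_succ {e : ℕ} (he : 1 ≤ e) {W : Finset α} {v : α} (hv : v ∈ W) :
    ((bad (e + 1) W).card : ℝ) ≤
      2 ^ ((W.card - 1).choose (e + 1)) * (bad e (W.erase v)).card +
      ((W.card - 1).choose e : ℕ) *
        ((1 - (1 / 2) ^ (e + 1)) ^ (W.card - 1 - e) * 2 ^ (W.card.choose (e + 1))) := by
  classical
  set A := (powersetCard (e + 1) W).powerset.filter fun 𝓕 => lnk v 𝓕 ∈ bad e (W.erase v) with hA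
  let Bt : Finset α → Finset (Finset (Finset α)) := fun τ =>
    (powersetCard (e + 1) W).powerset.filter fun 𝓕 => ∀ x ∈ (W.erase v) \ τ, ¬ need v τ x ⊆ 𝓕
  have h1 : bad (e + 1) W ⊆ A ∪ (powersetCard e (W.erase v)).biUnion Bt := by
    intro 𝓕 hF
    obtain ⟨hF1, hF2⟩ := mem_bad.1 hF
    rw [mem_union, mem_biUnion]
    by_contra hcon
    push Not at hcon
    obtain ⟨hc1, hc2⟩ := hcon
    apply hF2
    apply shb_of_lnk he hF1
    · by_contra hL
      apply hc1
      rw [hA, mem_filter, mem_powerset]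
      exact ⟨hF1, mem_bad.2 ⟨lnk_sub hF1, hL⟩⟩
    · intro τ hτ
      by_contra hno
      push Not at hno
      apply hc2 τ hτ
      rw [mem_filter, mem_powerset]
      exact ⟨hF1, hno⟩
  have h2 : ∀ τ ∈ powersetCard e (W.erase v), ((Bt τ).card : ℝ) ≤
      (1 - (1 / 2) ^ (e + 1)) ^ (W.card - 1 - e) * 2 ^ (W.card.choose (e + 1)) := by
    intro τ hτ
    have hτ' := mem_powersetCard.1 hτ
    have h3 := count_avoid (powersetCard (e + 1) W) ((W.erase v) \ τ) (need v τ) (e + 1)
      (fun x hx => need_sub hv hτ hx) (fun x _ => need_card hτ'.2) (by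
        intro x hx y hy hxy
        rw [Finset.mem_sdiff, mem_erase] at hx hy
        rw [disjoint_left]
        intro F hFx hFy
        exact need_notMem hx.2 hxy hx.1.1 F hFy (need_mem hx.2 F hFx))
    rw [card_powersetCard, card_sdiff_of_subset hτ'.1, card_erase_of_mem hv, hτ'.2] at h3
    exact h3
  have h3 : (bad (e + 1) W).card ≤ A.card + ∑ τ ∈ powersetCard e (W.erase v), (Bt τ).card :=
    (card_le_card h1).trans ((card_union_le _ _).trans (Nat.add_le_add_left card_biUnion_le _))
  have h4 : ((bad (e + 1) W).card : ℝ) ≤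
      A.card + ∑ τ ∈ powersetCard e (W.erase v), ((Bt τ).card : ℝ) := by exact_mod_cast h3
  refine h4.trans (add_le_add ?_ ?_)
  · have := card_lnk_bad (e := e) hv
    exact_mod_cast this
  · refine (sum_le_sum h2).trans (le_of_eq ?_)
    rw [sum_const, card_powersetCard, card_erase_of_mem hv, nsmul_eq_mul]

/-- the bound for the proportion -/
noncomputable def bnd : ℕ → ℕ → ℝ
  | 0, _ => 0
  | e + 1, w => bnd e (w - 1) +
      ((w - 1).choose (e + 1) : ℕ) * (1 - (1 / 2) ^ (e + 2)) ^ (w - 1 - (e + 1))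

theorem bnd_nonneg (e w : ℕ) : 0 ≤ bnd e w := by
  induction e generalizing w with
  | zero => exact le_refl 0
  | succ e ih =>
    unfold bnd
    have h1 : (0 : ℝ) ≤ 1 - (1 / 2) ^ (e + 2) := by
      have : ((1 : ℝ) / 2) ^ (e + 2) ≤ 1 := pow_le_one₀ (by norm_num) (by norm_num)
      linarith
    have := ih (w - 1)
    positivity

theorem ratio_le (e : ℕ) (W : Finset α) :
    ((bad (e + 1) W).card : ℝ) ≤ bnd e W.card * 2 ^ (W.card.choose (e + 1)) := by
  induction e generalizing W with
  | zero =>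
    have : bad (0 + 1) W = ∅ := by
      apply eq_empty_of_forall_notMem
      intro 𝓕 hF
      obtain ⟨h1, h2⟩ := mem_bad.1 hF
      exact h2 (shb_one fun F hF => (mem_powersetCard.1 (h1 hF)).2)
    rw [this]
    simp [bnd]
  | succ e ih =>
    rcases W.eq_empty_or_nonempty with rfl | ⟨v, hv⟩
    · have : bad (e + 1 + 1) (∅ : Finset α) = ∅ := by
        apply eq_empty_of_forall_notMem
        intro 𝓕 hF
        obtain ⟨h1, h2⟩ := mem_bad.1 hF
        apply h2
        rw [powersetCard_eq_empty.2 (by simp), subset_empty] at h1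
        rw [h1]
        exact ⟨[], List.nodup_nil, rfl, isShl_nil _⟩
      rw [this]
      have := bnd_nonneg (e + 1) (∅ : Finset α).card
      simp only [card_empty, Nat.cast_zero] at this ⊢
      positivity
    · refine (bad_succ (by omega) hv).trans ?_
      have h1 := ih (W.erase v)
      rw [card_erase_of_mem hv] at h1
      have hw : 0 < W.card := card_pos.2 ⟨v, hv⟩
      have h2 : W.card.choose (e + 1 + 1) = (W.card - 1).choose (e + 1) + (W.card - 1).choose (e + 1 + 1) := by
        obtain ⟨k, hk⟩ := Nat.exists_eq_succ_of_ne_zero hw.ne'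
        rw [hk, Nat.succ_eq_add_one, Nat.choose_succ_succ, Nat.add_sub_cancel]
      rw [bnd, add_mul, mul_assoc _ _ ((2 : ℝ) ^ _)]
      apply add_le_add_left
      calc (2 : ℝ) ^ ((W.card - 1).choose (e + 1 + 1)) * (bad (e + 1) (W.erase v)).card
          ≤ 2 ^ ((W.card - 1).choose (e + 1 + 1)) *
            (bnd e (W.card - 1) * 2 ^ ((W.card - 1).choose (e + 1))) :=
            mul_le_mul_of_nonneg_left h1 (by positivity)
        _ = bnd e (W.card - 1) * 2 ^ (W.card.choose (e + 1 + 1)) := by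
            rw [h2, pow_add]; ring

theorem tendsto_term (k : ℕ) : Tendsto (fun m : ℕ =>
    ((m.choose k : ℕ) : ℝ) * (1 - (1 / 2) ^ (k + 1)) ^ (m - k)) atTop (𝓝 0) := by
  set r : ℝ := 1 - (1 / 2) ^ (k + 1) with hr
  have h1 : ((1 : ℝ) / 2) ^ (k + 1) ≤ 1 / 2 := by
    rw [pow_succ]
    have : ((1 : ℝ) / 2) ^ k ≤ 1 := pow_le_one₀ (by norm_num) (by norm_num)
    nlinarith
  have h2 : (0 : ℝ) < (1 / 2) ^ (k + 1) := by positivity
  have hr0 : 0 < r := by rw [hr]; linarith
  have hr1 : |r| < 1 := by rw [abs_of_pos hr0, hr]; linarith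
  have h3 := tendsto_pow_const_mul_const_pow_of_abs_lt_one k hr1
  have h4 : Tendsto (fun n : ℕ => ((r ^ k)⁻¹) * ((n : ℝ) ^ k * r ^ n)) atTop (𝓝 0) := by
    have := h3.const_mul ((r ^ k)⁻¹)
    rwa [mul_zero] at this
  refine squeeze_zero' (Eventually.of_forall fun m => by positivity) ?_ h4
  filter_upwards [eventually_ge_atTop k] with m hm
  have h5 : r ^ m = r ^ k * r ^ (m - k) := by rw [← pow_add]; congr 1; omega
  have h6 : (r ^ k)⁻¹ * ((m : ℝ) ^ k * r ^ m) = (m : ℝ) ^ k * r ^ (m - k) := by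
    rw [h5]
    field_simp
  rw [h6]
  apply mul_le_mul_of_nonneg_right _ (by positivity)
  exact_mod_cast Nat.choose_le_pow m k

theorem tendsto_bnd (e : ℕ) : Tendsto (fun w : ℕ => bnd e w) atTop (𝓝 0) := by
  induction e with
  | zero => exact tendsto_const_nhds
  | succ e ih =>
    have h1 : Tendsto (fun w : ℕ => w - 1) atTop atTop := tendsto_sub_atTop_nat 1
    have h2 := (ih.comp h1).add ((tendsto_term (e + 1)).comp h1)
    rw [add_zero] at h2
    exact h2

end Pool.Agent.R140.Shl
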